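import Pool.Agent.H586.AF.C

set_option autoImplicit false

/-!
# Schwinger-Dyson identity on a product of copies of `SU(2)` (task AF-SD2 of helper586)
-/

open MeasureTheory Matrix Finset Filter Topology
open scoped Quaternion

namespace Pool.Agent.H862.AF

open Pool.Agent.H586.AF

theorem un_re (a : Fin 3) : (un a).re = 0 := by
  fin_cases a <;> rfl

theorem un_sq (a : Fin 3) : (un a).imI * (un a).imI + (un a).imJ * (un a).imJ +
    (un a).imK * (un a).imK = 1 := by
  fin_cases a <;> simp [un]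

theorem gq_re (a : Fin 3) (t : ℝ) : (gq a t).re = Real.cos (t / Real.sqrt 2) := by
  unfold gq
  rw [Quaternion.re_add, Quaternion.re_coe, Quaternion.re_smul, un_re, smul_zero, add_zero]

theorem gq_imI (a : Fin 3) (t : ℝ) : (gq a t).imI = Real.sin (t / Real.sqrt 2) * (un a).imI := by
  unfold gq
  rw [Quaternion.imI_add, Quaternion.imI_coe, Quaternion.imI_smul, zero_add, smul_eq_mul]

theorem gq_imJ (a : Fin 3) (t : ℝ) : (gq a t).imJ = Real.sin (t / Real.sqrt 2) * (un a).imJ := by
  unfold gq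
  rw [Quaternion.imJ_add, Quaternion.imJ_coe, Quaternion.imJ_smul, zero_add, smul_eq_mul]

theorem gq_imK (a : Fin 3) (t : ℝ) : (gq a t).imK = Real.sin (t / Real.sqrt 2) * (un a).imK := by
  unfold gq
  rw [Quaternion.imK_add, Quaternion.imK_coe, Quaternion.imK_smul, zero_add, smul_eq_mul]

theorem gq_zero (a : Fin 3) : gq a 0 = 1 := by
  ext
  · rw [gq_re]; simp
  · rw [gq_imI]; simp
  · rw [gq_imJ]; simp
  · rw [gq_imK]; simp

theorem gq_add (a : Fin 3) (s t : ℝ) : gq a (s + t) = gq a s * gq a t := by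
  have h := un_sq a
  ext
  · rw [Quaternion.re_mul]
    simp only [gq_re, gq_imI, gq_imJ, gq_imK, add_div, Real.cos_add]
    linear_combination (Real.sin (s / Real.sqrt 2) * Real.sin (t / Real.sqrt 2)) * h
  · rw [Quaternion.imI_mul]
    simp only [gq_re, gq_imI, gq_imJ, gq_imK, add_div, Real.sin_add]
    ring
  · rw [Quaternion.imJ_mul]
    simp only [gq_re, gq_imI, gq_imJ, gq_imK, add_div, Real.sin_add]
    ring
  · rw [Quaternion.imK_mul]
    simp only [gq_re, gq_imI, gq_imJ, gq_imK, add_div, Real.sin_add]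
    ring

theorem norm_gq (a : Fin 3) (t : ℝ) : ‖gq a t‖ = 1 := by
  have h : ‖gq a t‖ * ‖gq a t‖ = 1 := by
    rw [← Quaternion.normSq_eq_norm_mul_self, Quaternion.normSq_def', gq_re, gq_imI, gq_imJ,
      gq_imK]
    have h1 := un_sq a
    have h2 := Real.sin_sq_add_cos_sq (t / Real.sqrt 2)
    linear_combination h2 + Real.sin (t / Real.sqrt 2) ^ 2 * h1
  nlinarith [norm_nonneg (gq a t)]

theorem coe_gm (a : Fin 3) (t : ℝ) : ((gm a t : SU) : ℍ[ℝ]) = gq a t := by
  unfold gm
  rw [dif_pos (norm_gq a t)]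

theorem gm_zero (a : Fin 3) : gm a 0 = 1 := by
  apply Subtype.ext
  rw [coe_gm, gq_zero]
  rfl

theorem gm_add (a : Fin 3) (s t : ℝ) : gm a (s + t) = gm a s * gm a t := by
  apply Subtype.ext
  rw [coe_gm, gq_add, ← coe_gm, ← coe_gm]
  rfl

theorem sh_zero {Λ : Type} [DecidableEq Λ] (l : Λ) (a : Fin 3) (σ : Λ → SU) : sh l a 0 σ = σ := by
  unfold sh
  rw [gm_zero, one_mul, Function.update_eq_self]

theorem sh_add {Λ : Type} [DecidableEq Λ] (l : Λ) (a : Fin 3) (s t : ℝ) (σ : Λ → SU) :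
    sh l a (s + t) σ = sh l a s (sh l a t σ) := by
  unfold sh
  rw [Function.update_self, Function.update_idem, gm_add, mul_assoc]

theorem mp_sh (μ : Measure SU) [IsProbabilityMeasure μ] [μ.IsHaarMeasure] {Λ : Type} [Fintype Λ]
    [DecidableEq Λ] (l : Λ) (a : Fin 3) (t : ℝ) :
    MeasurePreserving (sh l a t) (Measure.pi fun _ : Λ => μ) (Measure.pi fun _ : Λ => μ) := by
  have h : sh l a t = fun (σ : Λ → SU) i => (if i = l then (fun g : SU => gm a t * g) else id) (σ i) := by
    funext σ i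
    unfold sh
    by_cases hi : i = l
    · subst hi
      rw [Function.update_self, if_pos rfl]
    · rw [Function.update_of_ne hi, if_neg hi]
      rfl
  rw [h]
  refine measurePreserving_pi (fun _ : Λ => μ) (fun _ : Λ => μ) fun i => ?_
  split_ifs
  · exact measurePreserving_mul_left μ (gm a t)
  · exact MeasurePreserving.id μ

theorem deriv_sh {Λ : Type} [DecidableEq Λ] (l : Λ) (a : Fin 3) (F F' : (Λ → SU) → ℝ)
    (h : ∀ σ, HasDerivAt (fun t => F (sh l a t σ)) (F' σ) 0) (σ : Λ → SU) (t₀ : ℝ) :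
    HasDerivAt (fun t => F (sh l a t σ)) (F' (sh l a t₀ σ)) t₀ := by
  have h1 := h (sh l a t₀ σ)
  have h2 : HasDerivAt (fun t => F (sh l a (t - t₀) (sh l a t₀ σ))) (F' (sh l a t₀ σ)) t₀ := by
    have h3 : HasDerivAt (fun t => F (sh l a t (sh l a t₀ σ))) (F' (sh l a t₀ σ)) (t₀ - t₀) := by
      rw [sub_self]
      exact h1
    exact h3.comp_sub_const t₀ t₀
  refine h2.congr_of_eventuallyEq (Eventually.of_forall fun t => ?_)
  simp only []
  rw [← sh_add, sub_add_cancel]

theorem tsd2 : S_SD2 := by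
  intro μ _ _ Λ _ _ l a β C F F' E E' hF hF' hE hE' hb dF dE
  have hC0 : 0 ≤ C := (abs_nonneg _).trans (hb (fun _ => 1)).1
  obtain ⟨P, hP⟩ : ∃ P : Measure (Λ → SU), P = Measure.pi fun _ => μ := ⟨_, rfl⟩
  have hPp : IsProbabilityMeasure P := by rw [hP]; infer_instance
  rw [← hP]
  have hexp : ∀ σ, Real.exp (-(β * E σ)) ≤ Real.exp (|β| * C) := by
    intro σ
    refine Real.exp_le_exp.2 ?_
    calc -(β * E σ) ≤ |β * E σ| := neg_le_abs _
      _ = |β| * |E σ| := abs_mul _ _
      _ ≤ |β| * C := mul_le_mul_of_nonneg_left (hb σ).2.2.1 (abs_nonneg β)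
  have hmE : Measurable fun σ => Real.exp (-(β * E σ)) := (hE.const_mul β).neg.exp
  have hshm : ∀ t, Measurable (sh l a t : (Λ → SU) → (Λ → SU)) := fun t => by
    have := (mp_sh μ l a t).measurable
    exact this
  -- the derivative of the integrand
  have hd : ∀ σ t, HasDerivAt (fun t => F (sh l a t σ) * Real.exp (-(β * E (sh l a t σ))))
      (F' (sh l a t σ) * Real.exp (-(β * E (sh l a t σ))) +
        F (sh l a t σ) * (Real.exp (-(β * E (sh l a t σ))) * (-(β * E' (sh l a t σ))))) t := by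
    intro σ t
    exact (deriv_sh l a F F' dF σ t).mul (((deriv_sh l a E E' dE σ t).const_mul β).fun_neg.exp)
  have hbound : ∀ σ, ‖F' σ * Real.exp (-(β * E σ)) +
      F σ * (Real.exp (-(β * E σ)) * (-(β * E' σ)))‖ ≤
      (C + C * (|β| * C)) * Real.exp (|β| * C) := by
    intro σ
    obtain ⟨b1, b2, b3, b4⟩ := hb σ
    have e0 := Real.exp_pos (-(β * E σ))
    have h1 : F' σ * Real.exp (-(β * E σ)) + F σ * (Real.exp (-(β * E σ)) * (-(β * E' σ))) =
        (F' σ + F σ * (-(β * E' σ))) * Real.exp (-(β * E σ)) := by ring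
    rw [h1, norm_mul, Real.norm_eq_abs, Real.norm_eq_abs, abs_of_pos e0]
    refine mul_le_mul ?_ (hexp σ) e0.le (by positivity)
    refine (abs_add_le _ _).trans (add_le_add b2 ?_)
    rw [abs_mul, abs_neg, abs_mul]
    exact mul_le_mul b1 (mul_le_mul_of_nonneg_left b4 (abs_nonneg β)) (by positivity) hC0
  have hbF : ∀ σ, ‖F σ * Real.exp (-(β * E σ))‖ ≤ C * Real.exp (|β| * C) := by
    intro σ
    rw [norm_mul, Real.norm_eq_abs, Real.norm_eq_abs, abs_of_pos (Real.exp_pos _)]
    exact mul_le_mul (hb σ).1 (hexp σ) (Real.exp_pos _).le hC0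
  have hmG : Measurable fun σ => F σ * Real.exp (-(β * E σ)) := hF.mul hmE
  have hmG' : Measurable fun σ => F' σ * Real.exp (-(β * E σ)) +
      F σ * (Real.exp (-(β * E σ)) * (-(β * E' σ))) :=
    (hF'.mul hmE).add (hF.mul (hmE.mul (hE'.const_mul β).neg))
  have key := hasDerivAt_integral_of_dominated_loc_of_deriv_le (μ := P) (x₀ := (0 : ℝ))
    (F := fun (t : ℝ) (σ : Λ → SU) => F (sh l a t σ) * Real.exp (-(β * E (sh l a t σ))))
    (F' := fun (t : ℝ) (σ : Λ → SU) => F' (sh l a t σ) * Real.exp (-(β * E (sh l a t σ))) +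
        F (sh l a t σ) * (Real.exp (-(β * E (sh l a t σ))) * (-(β * E' (sh l a t σ)))))
    (bound := fun _ => (C + C * (|β| * C)) * Real.exp (|β| * C))
    (Metric.ball_mem_nhds (0 : ℝ) one_pos)
    (Eventually.of_forall fun t => (hmG.comp (hshm t)).aestronglyMeasurable)
    (Integrable.of_bound (hmG.comp (hshm 0)).aestronglyMeasurable (C * Real.exp (|β| * C))
      (Eventually.of_forall fun σ => hbF _))
    (hmG'.comp (hshm 0)).aestronglyMeasurable
    (Eventually.of_forall fun σ t _ => hbound _) (integrable_const _)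
    (Eventually.of_forall fun σ t _ => hd σ t)
  have hconst : (fun t => ∫ σ, F (sh l a t σ) * Real.exp (-(β * E (sh l a t σ))) ∂P) =
      fun _ => ∫ σ, F σ * Real.exp (-(β * E σ)) ∂P := by
    funext t
    have h1 := mp_sh μ l a t
    rw [← hP] at h1
    have h2 := integral_map (μ := P) (φ := sh l a t) h1.measurable.aemeasurable
      (f := fun σ => F σ * Real.exp (-(β * E σ))) hmG.aestronglyMeasurable
    rw [h1.map_eq] at h2
    exact h2.symm
  have h0 : ∫ σ, (F' (sh l a 0 σ) * Real.exp (-(β * E (sh l a 0 σ))) +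
        F (sh l a 0 σ) * (Real.exp (-(β * E (sh l a 0 σ))) * (-(β * E' (sh l a 0 σ))))) ∂P = 0 := by
    have h1 := key.2
    rw [hconst] at h1
    exact h1.unique (hasDerivAt_const _ _)
  simp only [sh_zero] at h0
  have i1 : Integrable (fun σ => F' σ * Real.exp (-(β * E σ))) P := by
    refine Integrable.of_bound (hF'.mul hmE).aestronglyMeasurable (C * Real.exp (|β| * C))
      (Eventually.of_forall fun σ => ?_)
    rw [norm_mul, Real.norm_eq_abs, Real.norm_eq_abs, abs_of_pos (Real.exp_pos _)]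
    exact mul_le_mul (hb σ).2.1 (hexp σ) (Real.exp_pos _).le hC0
  have i2 : Integrable (fun σ => F σ * (Real.exp (-(β * E σ)) * (-(β * E' σ)))) P := by
    have h1 : Integrable (fun σ => F' σ * Real.exp (-(β * E σ)) +
        F σ * (Real.exp (-(β * E σ)) * (-(β * E' σ)))) P :=
      Integrable.of_bound hmG'.aestronglyMeasurable _ (Eventually.of_forall hbound)
    refine (h1.sub i1).congr (Eventually.of_forall fun σ => ?_)
    simp
  rw [integral_add i1 i2] at h0
  have h2 : ∫ σ, F σ * (Real.exp (-(β * E σ)) * (-(β * E' σ))) ∂P =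
      -(β * ∫ σ, F σ * E' σ * Real.exp (-(β * E σ)) ∂P) := by
    rw [← neg_mul, ← integral_const_mul]
    refine integral_congr_ae (Eventually.of_forall fun σ => ?_)
    simp only []
    ring
  rw [h2] at h0
  linarith

end Pool.Agent.H862.AF
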